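import Pool.Agent.L5helper98.CG.Final

/-!
# MP_e22585_pr: moments of the centered Gaussian multiplicative chaos

For every admissible `r` (interval case `c = false`, circle case `c = true`), every `0 < μ < 2`,
every measurable weight `φ` bounded and bounded away from `0`, and every real `q` with
`-1/μ - 1/2 < q < 2/μ`, the limit of
`e^{μ (log r(ε) - 1) q(q+1)/2} E (∫_0^1 φ(u) e^{ω_ε(u) - ω_ε(0)} du)^q` as `ε → 0` exists and is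
`E (∫_0^1 r(u)^{μ q} φ(u) M_μ(du))^q`, a finite number. The definitions `dst`, `cv`, `Adm`,
`Field`, `IsChaos` are in `Pool/Agent/L5helper98/CG/Defs.lean`.
-/

set_option autoImplicit false

open MeasureTheory ProbabilityTheory Filter Topology Set
open scoped ENNReal BoundedContinuousFunction

namespace Pool.Agent.Results.MP_e22585_pr.CenteredMoments

open Pool.Agent.L5helper98.CG

theorem result (c : Bool) (r : ℝ → ℝ) (μ : ℝ) (hr : Adm c r) (hμ : 0 < μ) (hμ2 : μ < 2)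
    (Ω : ℝ → Type) [∀ ε, MeasurableSpace (Ω ε)] (P : ∀ ε, Measure (Ω ε))
    [∀ ε, IsProbabilityMeasure (P ε)] (ω : ∀ ε, ℝ → Ω ε → ℝ)
    (hω : ∀ᶠ ε in 𝓝[>] (0 : ℝ), Field c r μ ε (P ε) (ω ε))
    (Ω' : Type) [MeasurableSpace Ω'] (P' : Measure Ω') [IsProbabilityMeasure P']
    (M : Ω' → Measure ℝ) (hM : IsChaos Ω P ω P' M)
    (φ : ℝ → ℝ) (hφ : Measurable φ) (hφ1 : ∃ a : ℝ, 0 < a ∧ ∀ u, a ≤ φ u)
    (hφ2 : ∃ b : ℝ, ∀ u, φ u ≤ b)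
    (q : ℝ) (hq1 : -1 / μ - 1 / 2 < q) (hq2 : q < 2 / μ) :
    (∀ᵐ y ∂P', M y {0} = 0 ∧ M y {1} = 0 ∧
      IntegrableOn (fun u => r u ^ (μ * q) * φ u) (Ioo 0 1) (M y) ∧
      0 < ∫ u in Ioo (0 : ℝ) 1, r u ^ (μ * q) * φ u ∂(M y)) ∧
    Integrable (fun y => (∫ u in Ioo (0 : ℝ) 1, r u ^ (μ * q) * φ u ∂(M y)) ^ q) P' ∧
    (∀ᶠ ε in 𝓝[>] (0 : ℝ), Integrable (fun x =>
      (∫ u in Ico (0 : ℝ) 1, φ u * Real.exp (ω ε u x - ω ε 0 x)) ^ q) (P ε)) ∧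
    Tendsto (fun ε => Real.exp (μ * (Real.log (r ε) - 1) * (q * (q + 1) / 2)) *
        ∫ x, (∫ u in Ico (0 : ℝ) 1, φ u * Real.exp (ω ε u x - ω ε 0 x)) ^ q ∂(P ε)) (𝓝[>] 0)
      (𝓝 (∫ y, (∫ u in Ioo (0 : ℝ) 1, r u ^ (μ * q) * φ u ∂(M y)) ^ q ∂P')) :=
  main c r μ Ω P ω ⟨hr, hμ, hμ2, inferInstance, hω⟩ Ω' P' M hM φ ⟨hφ, hφ1, hφ2⟩ q hq1 hq2

end Pool.Agent.Results.MP_e22585_pr.CenteredMoments
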